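import Pool.Agent.Helper5.UN.Goals
import Pool.Agent.Helper45.RO.GRP
import Pool.Agent.Helper70.RO.AV

/-!
# Project UN (MP_a41896_nt): packet GIN
-/

set_option autoImplicit false

namespace Pool.Agent.Helper18.UN

open WeierstrassCurve MvPolynomial
open Pool.Agent.Helper29.BL Pool.Agent.Helper5.RO Pool.Agent.Helper5.UN
open Pool.Agent.Helper70.RO

theorem adj_vz {G : Type} [AddCommGroup G] {n : ℕ} (m : Matrix (Fin n) (Fin n) ℤ)
    (z : Fin n → G) (k : Fin n) :
    ∑ j, m.adjugate k j • vz (m j) z = m.det • z k := by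
  have h1 : ∀ j, m.adjugate k j • vz (m j) z = ∑ i, (m.adjugate k j * m j i) • z i := by
    intro j
    unfold vz
    rw [Finset.smul_sum]
    exact Finset.sum_congr rfl fun i _ => smul_smul _ _ _
  rw [Finset.sum_congr rfl fun j _ => h1 j, Finset.sum_comm]
  have h2 : ∀ i, ∑ j, (m.adjugate k j * m j i) • z i = (m.adjugate * m) k i • z i := by
    intro i
    rw [← Finset.sum_smul, Matrix.mul_apply]
  rw [Finset.sum_congr rfl fun i _ => h2 i, Matrix.adjugate_mul]
  have h3 : ∀ i, (m.det • (1 : Matrix (Fin n) (Fin n) ℤ)) k i • z i =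
      if k = i then m.det • z i else 0 := by
    intro i
    rw [Matrix.smul_apply, Matrix.one_apply]
    by_cases h : k = i
    · simp [h]
    · simp [h]
  rw [Finset.sum_congr rfl fun i _ => h3 i, Finset.sum_ite_eq]
  simp

theorem det_ne {n : ℕ} (m : Fin n → Fin n → ℤ) (h : LinearIndependent ℤ m) :
    Matrix.det (m : Matrix (Fin n) (Fin n) ℤ) ≠ 0 := by
  intro h0
  obtain ⟨v, hv, hv0⟩ := Matrix.exists_vecMul_eq_zero_iff.mpr h0
  rw [Fintype.linearIndependent_iff] at h
  refine hv (funext fun i => h v ?_ i)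
  funext j
  have := congrFun hv0 j
  rw [Finset.sum_apply]
  exact this

theorem gGIN (hIND : G_IND) (hTRD : G_TRD) : G_GIN := by
  intro K Ω _ _ _ _ _ B _ W _ W' hW' n z hz hind m hm
  refine ⟨fun t j => ?_, ?_⟩
  · refine (hIND K Ω (W t) (W' t) (hW' t)).1 (n t) (z t) (hz t) ?_ (m t j) ((hm t).ne_zero j)
    exact hind.comp (fun i : Fin (n t) => (⟨t, i⟩ : IX n)) (fun i j hij => by
      simpa using hij)
  · refine hTRD K Ω (IX n) (fun i : IX n => xc (z i.1 i.2)) _ hind ?_
    set η : IX n → Ω := fun i : IX n => xc (vz (m i.1 i.2) (z i.1)) with hη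
    rintro ⟨t, k⟩
    obtain ⟨H, hH⟩ := Pool.Agent.Helper45.RO.gGRP K Ω (LL K (Set.range η))
      (LL_closed (Set.range η)) (W t) (W' t) (hW' t)
    have h1 : ∀ j, vz (m t j) (z t) ∈ H := by
      intro j
      rw [hH, mem_LL]
      exact isAlgebraic_algebraMap (⟨η ⟨t, j⟩, IntermediateField.subset_adjoin K _
        ⟨⟨t, j⟩, rfl⟩⟩ : IntermediateField.adjoin K (Set.range η))
    have h2 : Matrix.det (m t : Matrix (Fin (n t)) (Fin (n t)) ℤ) • z t k ∈ H := by
      rw [← adj_vz (m t : Matrix (Fin (n t)) (Fin (n t)) ℤ) (z t) k]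
      exact H.sum_mem fun j _ => H.zsmul_mem (h1 j) _
    have h3 := (hIND K Ω (W t) (W' t) (hW' t)).2 (LL K (Set.range η))
      (LL_closed (Set.range η)) _ (z t k) (det_ne (m t) (hm t)) ((hH _).mp h2)
    rw [mem_LL] at h3
    exact h3

end Pool.Agent.Helper18.UN
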